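import Mathlib
import Pool.Agent.H32.Tower

namespace Pool.Agent.Results.MP_f4378e_lc.CH
open Filter Set Cardinal Topology

/-- `Y` (with `X` embedded by `ι` and `f ↦ *f` given by `st`) is a topological extension of `X`. -/
structure IsTopExt {X Y : Type} [TopologicalSpace Y] (ι : X → Y) (st : (X → X) → Y → Y) :
    Prop where
  t1 : T1Space Y
  inj : Function.Injective ι
  dense : DenseRange ι
  discrete : DiscreteTopology (range ι)
  cont : ∀ f, Continuous (st f)
  ext : ∀ f x, st f (ι x) = ι (f x)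
  comp : ∀ f g, st g ∘ st f = st (g ∘ f)
  ident : ∀ (f : X → X) (A : Set X), (∀ x ∈ A, f x = x) → ∀ ξ ∈ closure (ι '' A), st f ξ = ξ

/-- Hyperextension: properties (a) and (p) in addition. -/
structure IsHyperext {X Y : Type} [TopologicalSpace Y] (ι : X → Y) (st : (X → X) → Y → Y) :
    Prop extends IsTopExt ι st where
  propA : ∀ f g : X → X, (∀ x, f x ≠ g x) ↔ ∀ ξ, st f ξ ≠ st g ξ
  propP : ∃ p q : X → X, ∀ ξ η : Y, ∃ ζ, st p ζ = ξ ∧ st q ζ = η

open Pool.Agent.H32.Tower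

def Haus (u : Ultrafilter ℕ) : Prop := ∀ f g : ℕ → ℕ, u.map f = u.map g → {x | f x = g x} ∈ u

def Cone (u : Ultrafilter ℕ) : Set (Ultrafilter ℕ) := {t | ∃ f : ℕ → ℕ, t = u.map f}

lemma self_mem_cone (u : Ultrafilter ℕ) : u ∈ Cone u := ⟨id, (Ultrafilter.map_id u).symm⟩

lemma cone_sub {u w : Ultrafilter ℕ} (h : u ∈ Cone w) : Cone u ⊆ Cone w := by
  obtain ⟨g, rfl⟩ := h
  rintro _ ⟨f, rfl⟩
  exact ⟨f ∘ g, Ultrafilter.map_map _ _ _⟩

lemma haus_of_cone {u t : Ultrafilter ℕ} (hu : Haus u) (h : t ∈ Cone u) : Haus t := by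
  obtain ⟨f, rfl⟩ := h
  intro g h e
  rw [Ultrafilter.map_map, Ultrafilter.map_map] at e
  exact hu _ _ e

lemma haus_pure : Haus (pure 0) := by
  intro f g h
  rw [Ultrafilter.map_pure, Ultrafilter.map_pure] at h
  exact Ultrafilter.pure_injective h

lemma key (hCH : (𝔠 : Cardinal.{0}) = ℵ₁) (u : ℕ → Ultrafilter ℕ) (hu : ∀ n, Haus (u n)) :
    ∃ v w : Ultrafilter ℕ, (v : Filter ℕ) ≤ atTop ∧ Haus w ∧
      ∀ t : ℕ → Ultrafilter ℕ, (∀ᶠ n in atTop, t n ∈ Cone (u n)) → v.bind t ∈ Cone w := by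
  classical
  let a : (ℕ → ℕ) → ℕ → Ultrafilter ℕ := fun f n => (u n).map (fun m => f (Nat.pair n m))
  obtain ⟨v, hv, hD⟩ := tower (ι := (ℕ → ℕ) × (ℕ → ℕ)) (by simp [← hCH])
    (fun p B => (∀ n ∈ B, a p.1 n = a p.2 n) ∨ ∃ C, ∀ n ∈ B, C ∈ a p.1 n ∧ C ∉ a p.2 n) (by
      intro p A hA
      by_cases h : (A ∩ {n | a p.1 n = a p.2 n}).Infinite
      · exact ⟨_, inter_subset_left, h, Or.inl fun n hn => hn.2⟩
      · have h2 : (A \ (A ∩ {n | a p.1 n = a p.2 n})).Infinite := hA.sdiff (not_infinite.1 h)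
        obtain ⟨B, p1, p2, C, p3⟩ := sep (a p.1) (a p.2) _ h2 (fun n hn e => hn.2 ⟨hn.1, e⟩)
        exact ⟨B, p1.trans sdiff_subset, p2, Or.inr ⟨C, p3⟩⟩)
  let w : Ultrafilter ℕ := v.bind (fun n => (u n).map (Nat.pair n))
  have hw : ∀ f, w.map f = v.bind (a f) := by
    intro f
    ext C
    rw [Ultrafilter.mem_map, mem_bind_iff, mem_bind_iff]
    rfl
  refine ⟨v, w, hv, fun f g e => ?_, fun t ht => ?_⟩
  · rw [hw, hw] at e
    obtain ⟨B, hB, h | ⟨C, h⟩⟩ := hD (f, g)
    · rw [mem_bind_iff]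
      exact mem_of_superset hB fun n hn => hu n _ _ (h n hn)
    · exfalso
      have h1 : C ∈ v.bind (a f) := (mem_bind_iff _ _ _).2 (mem_of_superset hB fun n hn => (h n hn).1)
      rw [e, mem_bind_iff] at h1
      obtain ⟨n, n1, n2⟩ := v.nonempty_of_mem (inter_mem hB h1)
      exact (h n n1).2 n2
  · let F : ℕ → ℕ → ℕ := fun n => if h : t n ∈ Cone (u n) then h.choose else id
    refine ⟨fun k => F k.unpair.1 k.unpair.2, ?_⟩
    rw [hw]
    have hE : {n | t n = a (fun k => F k.unpair.1 k.unpair.2) n} ∈ v := by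
      refine mem_of_superset (hv ht) fun n hn => ?_
      have hn' : t n ∈ Cone (u n) := hn
      simp only [mem_ofPred_eq, a, Nat.unpair_pair, F, dif_pos hn']
      exact hn'.choose_spec
    ext C
    rw [mem_bind_iff, mem_bind_iff]
    constructor
    · intro h
      refine mem_of_superset (inter_mem h hE) fun n hn => ?_
      have e : t n = _ := hn.2
      have := hn.1
      simp only [mem_ofPred_eq] at this ⊢
      rwa [← e]
    · intro h
      refine mem_of_superset (inter_mem h hE) fun n hn => ?_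
      have e : t n = _ := hn.2
      have := hn.1
      simp only [mem_ofPred_eq] at this ⊢
      rwa [e]

def Lt (u w : {u // Haus u}) : Prop :=
  u.1 ∈ Cone w.1 ∧ ∃ v : Ultrafilter ℕ, (v : Filter ℕ) ≤ atTop ∧
    ∀ t : ℕ → Ultrafilter ℕ, (∀ n, t n ∈ Cone u.1) → v.bind t ∈ Cone w.1

lemma Lt.trans {u w z : {u // Haus u}} (h : Lt u w) (h' : Lt w z) : Lt u z := by
  obtain ⟨h1, v, h2, h3⟩ := h
  exact ⟨cone_sub h'.1 h1, v, h2, fun t ht => cone_sub h'.1 (h3 t ht)⟩

lemma ub (hCH : (𝔠 : Cardinal.{0}) = ℵ₁) (D : Set {u // Haus u}) (hD : D.Countable)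
    (hc : IsChain Lt D) : ∃ w, ∀ d ∈ D, Lt d w := by
  rcases D.eq_empty_or_nonempty with rfl | hne
  · exact ⟨⟨_, haus_pure⟩, fun d hd => hd.elim⟩
  obtain ⟨d, rfl⟩ := hD.exists_eq_range hne
  have : ∀ n, ∃ j, ∀ k ≤ n, (d k).1 ∈ Cone (d j).1 := by
    intro n
    induction n with
    | zero => exact ⟨0, fun k hk => by rw [Nat.le_zero.1 hk]; exact self_mem_cone _⟩
    | succ n ih =>
      obtain ⟨j, hj⟩ := ih
      have : (d j).1 ∈ Cone (d (n + 1)).1 ∨ (d (n + 1)).1 ∈ Cone (d j).1 := by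
        by_cases e : d j = d (n + 1)
        · rw [e]; exact Or.inl (self_mem_cone _)
        · exact (hc (mem_range_self j) (mem_range_self (n + 1)) e).imp And.left And.left
      rcases this with h | h
      · refine ⟨n + 1, fun k hk => ?_⟩
        rcases hk.eq_or_lt with rfl | hk
        · exact self_mem_cone _
        · exact cone_sub h (hj k (by omega))
      · refine ⟨j, fun k hk => ?_⟩
        rcases hk.eq_or_lt with rfl | hk
        · exact h
        · exact hj k (by omega)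
  choose j hj using this
  obtain ⟨v, w, h1, h2, h3⟩ := key hCH (fun n => (d (j n)).1) (fun n => (d (j n)).2)
  refine ⟨⟨w, h2⟩, ?_⟩
  rintro _ ⟨k, rfl⟩
  have h4 : ∀ t : ℕ → Ultrafilter ℕ, (∀ n, t n ∈ Cone (d k).1) → v.bind t ∈ Cone w :=
    fun t ht => h3 t ((eventually_ge_atTop k).mono fun n hn => cone_sub (hj n k hn) (ht n))
  refine ⟨?_, v, h1, h4⟩
  have h5 := h4 (fun _ => (d k).1) (fun _ => self_mem_cone _)
  have e : v.bind (fun _ => (d k).1) = (d k).1 := by
    refine Ultrafilter.eq_of_le fun C hC => ?_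
    have hC' : C ∈ (d k).1 := hC
    exact (mem_bind_iff _ _ _).2 (mem_of_superset univ_mem fun _ _ => hC')
  rwa [e] at h5

lemma chain_ub (hCH : (𝔠 : Cardinal.{0}) = ℵ₁) (D : Set {u // Haus u}) (hD : D.Countable)
    (hs : D ⊆ maxChain Lt) : ∃ c ∈ maxChain Lt, ∀ d ∈ D, Lt d c := by
  have hm := maxChain_spec (r := Lt)
  by_contra hcon
  push Not at hcon
  obtain ⟨w, hw⟩ := ub hCH D hD (hm.1.mono hs)
  have h1 : ∀ c ∈ maxChain Lt, Lt c w := by
    intro c hc
    obtain ⟨d, hd, hn⟩ := hcon c hc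
    by_cases e : c = d
    · rw [e]; exact hw d hd
    · exact ((hm.1 hc (hs hd) e).resolve_right hn).trans (hw d hd)
  have h2 := hm.2 (hm.1.insert (a := w) fun b hb _ => Or.inr (h1 b hb)) (subset_insert _ _)
  obtain ⟨d, hd, hn⟩ := hcon w (by rw [h2]; exact mem_insert _ _)
  exact hn (hw d hd)

def YS : Set (Ultrafilter ℕ) := {t | ∃ c ∈ maxChain Lt, t ∈ Cone c.1}

lemma map_mem {t : Ultrafilter ℕ} (h : t ∈ YS) (f : ℕ → ℕ) : t.map f ∈ YS := by
  obtain ⟨c, hc, h⟩ := h
  exact ⟨c, hc, cone_sub h ⟨f, rfl⟩⟩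

lemma cont_map (f : ℕ → ℕ) : Continuous (Ultrafilter.map f) := by
  rw [ultrafilterBasis_is_basis.continuous_iff]
  rintro _ ⟨s, rfl⟩
  exact ultrafilter_isOpen_basic (f ⁻¹' s)

lemma tendsto_bind (v : Ultrafilter ℕ) (t : ℕ → Ultrafilter ℕ) : Tendsto t v (𝓝 (v.bind t)) := by
  rw [(ultrafilterBasis_is_basis.nhds_hasBasis).tendsto_right_iff]
  rintro _ ⟨⟨s, rfl⟩, hs⟩
  exact (mem_bind_iff _ _ _).1 hs

theorem result (hCH : (Cardinal.continuum : Cardinal.{0}) = Cardinal.aleph 1) :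
    ∃ (Y : Type) (_ : TopologicalSpace Y) (ι : ℕ → Y) (st : (ℕ → ℕ) → Y → Y),
      IsHyperext ι st ∧ T2Space Y ∧
      ∀ U : ℕ → Set Y, (∀ n, IsOpen (U n)) → (⋃ n, U n) = Set.univ →
        ∃ s : Finset ℕ, (⋃ n ∈ s, U n) = Set.univ := by
  obtain ⟨c0, hc0, -⟩ := chain_ub hCH ∅ countable_empty (empty_subset _)
  have hp : ∀ n : ℕ, (pure n : Ultrafilter ℕ) ∈ YS := by
    intro n
    refine ⟨c0, hc0, fun _ => n, ?_⟩
    symm
    refine Ultrafilter.eq_of_le fun C hC => ?_
    have hC' : n ∈ C := hC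
    exact Ultrafilter.mem_map.2 (mem_of_superset univ_mem fun _ _ => hC')
  let ι : ℕ → YS := fun n => ⟨pure n, hp n⟩
  let st : (ℕ → ℕ) → YS → YS := fun f t => ⟨t.1.map f, map_mem t.2 f⟩
  have hcont : ∀ f, Continuous (st f) :=
    fun f => ((cont_map f).comp continuous_subtype_val).subtype_mk _
  have hext : ∀ f x, st f (ι x) = ι (f x) := fun f x => Subtype.ext (Ultrafilter.map_pure _ _)
  have hinj : Function.Injective ι :=
    fun a b h => Ultrafilter.pure_injective (congrArg Subtype.val h)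
  refine ⟨YS, inferInstance, ι, st, ⟨⟨inferInstance, hinj, ?_, ?_, hcont, hext, ?_, ?_⟩, ?_, ?_⟩,
    inferInstance, ?_⟩
  · exact IsInducing.subtypeVal.dense_iff.2 fun x => by
      rw [← range_comp]
      exact denseRange_pure x.1
  · rw [discreteTopology_iff_isOpen_singleton]
    rintro ⟨_, n, rfl⟩
    have h1 : IsOpen ((fun y : range ι => y.1.1) ⁻¹' {u : Ultrafilter ℕ | {n} ∈ u}) :=
      (ultrafilter_isOpen_basic {n}).preimage (continuous_subtype_val.comp continuous_subtype_val)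
    have : ((fun y : range ι => y.1.1) ⁻¹' {u : Ultrafilter ℕ | {n} ∈ u}) =
        {⟨ι n, n, rfl⟩} := by
      ext ⟨_, m, rfl⟩
      constructor
      · intro h
        have : m = n := h
        subst this
        rfl
      · intro h
        have : m = n := hinj (congrArg Subtype.val h)
        exact this
    rwa [this] at h1
  · intro f g
    funext t
    exact Subtype.ext (Ultrafilter.map_map _ _ _)
  · intro f A hA ξ hξ
    have : EqOn (st f) id (ι '' A) := by
      rintro _ ⟨x, hx, rfl⟩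
      rw [hext, hA x hx]; rfl
    exact this.closure (hcont f) continuous_id hξ
  · intro f g
    constructor
    · intro h ξ e
      obtain ⟨c, _, hc⟩ := ξ.2
      obtain ⟨x, hx⟩ := ξ.1.nonempty_of_mem (haus_of_cone c.2 hc f g (congrArg Subtype.val e))
      exact h x hx
    · intro h x e
      exact h (ι x) (by rw [hext, hext, e])
  · refine ⟨fun k => k.unpair.1, fun k => k.unpair.2, fun ξ η => ?_⟩
    obtain ⟨c1, h1, k1⟩ := ξ.2
    obtain ⟨c2, h2, k2⟩ := η.2
    obtain ⟨c, hc, hd⟩ := chain_ub hCH {c1, c2} (Set.toFinite _).countable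
      (insert_subset h1 (singleton_subset_iff.2 h2))
    obtain ⟨f, hf⟩ := cone_sub (hd c1 (by simp)).1 k1
    obtain ⟨g, hg⟩ := cone_sub (hd c2 (by simp)).1 k2
    refine ⟨⟨c.1.map (fun m => Nat.pair (f m) (g m)), c, hc, _, rfl⟩, Subtype.ext ?_,
      Subtype.ext ?_⟩
    · show (c.1.map _).map _ = ξ.1
      rw [hf, Ultrafilter.map_map]
      congr 1
      funext m
      simp
    · show (c.1.map _).map _ = η.1
      rw [hg, Ultrafilter.map_map]
      congr 1
      funext m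
      simp
  · have : IsCountablyCompact (univ : Set YS) := by
      refine IsCountablyCompact.of_seq_clusterPt fun x _ => ?_
      choose c hc hx using fun n => (x n).2
      obtain ⟨c1, h1, k1⟩ := chain_ub hCH (range c) (countable_range _) (range_subset_iff.2 hc)
      obtain ⟨c2, h2, k2⟩ := chain_ub hCH {c1} (countable_singleton _) (singleton_subset_iff.2 h1)
      obtain ⟨-, v, hv, h3⟩ := k2 c1 rfl
      have h4 := h3 (fun n => (x n).1) (fun n => cone_sub (k1 _ (mem_range_self n)).1 (hx n))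
      refine ⟨⟨_, c2, h2, h4⟩, mem_univ _, ?_⟩
      have h5 : Tendsto x v (𝓝 (⟨_, c2, h2, h4⟩ : YS)) :=
        tendsto_subtype_rng.2 (tendsto_bind v _)
      exact h5.mapClusterPt.mono hv
    intro U hU hc
    obtain ⟨s, hs⟩ := this.elim_finite_subcover hU (by rw [hc])
    exact ⟨s, eq_univ_of_univ_subset hs⟩

end Pool.Agent.Results.MP_f4378e_lc.CH
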